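import Pool.Agent.K3h46.AS.Stm3

/-!
# Brick POIW of project AS3 (MP_bd895b_nt): closed top parts, with weights
(adapted from `Pool.Agent.K3h55.AS.Poi` of helper55)
-/

set_option autoImplicit false

namespace Pool.Agent.K3h24.AS

open MvPolynomial Pool.Agent.K3h46.AS

theorem elemW (p : ℕ) [Fact p.Prime] (F : Type) [Field F] [CharP F p] [PerfectRing F p]
    (n m N i j : ℕ) (hn : 0 < n) (hm : 0 < m) (hij : n * i + m * j = N + 1) (α β : F)
    (hα : i = 0 → α = 0) (hβ : j = 0 → β = 0) (hc : α * j = β * i) :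
    ∃ c g h : MvPolynomial (Fin 2) F,
      monomial (Finsupp.single 0 (i - 1) + Finsupp.single 1 j) α =
        pderiv 0 c + g ^ p * X 0 ^ (p - 1) ∧
      monomial (Finsupp.single 0 i + Finsupp.single 1 (j - 1)) β =
        pderiv 1 c + h ^ p * X 1 ^ (p - 1) ∧
      (∀ s, N < n * (s 0 + 1) + m * s 1 → coeff s g = 0) ∧
      (∀ s, N < n * s 0 + m * (s 1 + 1) → coeff s h = 0) := by
  have hp : p.Prime := Fact.out
  have hp0 : p ≠ 0 := hp.ne_zero
  have e0 : (Finsupp.single (0 : Fin 2) i + Finsupp.single 1 j) - Finsupp.single 0 1 =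
      Finsupp.single 0 (i - 1) + Finsupp.single 1 j := by
    ext k
    fin_cases k <;> simp
  have e1 : (Finsupp.single (0 : Fin 2) i + Finsupp.single 1 j) - Finsupp.single 1 1 =
      Finsupp.single 0 i + Finsupp.single 1 (j - 1) := by
    ext k
    fin_cases k <;> simp
  by_cases hi : (i : F) = 0
  · by_cases hj : (j : F) = 0
    · -- both divisible by `p`
      obtain ⟨i', rfl⟩ := (CharP.cast_eq_zero_iff F p i).1 hi
      obtain ⟨j', rfl⟩ := (CharP.cast_eq_zero_iff F p j).1 hj
      have hk : p * (n * i' + m * j') = N + 1 := by rw [← hij]; ring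
      have hs2 : n * i' + m * j' ≤ N := by
        have h2 := hp.two_le
        rcases Nat.eq_zero_or_pos (n * i' + m * j') with h0 | h0
        · omega
        · nlinarith
      have key : ∀ (a b : ℕ) (γ : F), ∃ g : MvPolynomial (Fin 2) F,
          g ^ p = monomial (Finsupp.single 0 (p * a) + Finsupp.single 1 (p * b)) γ ∧
          ∀ s, ¬ (s 0 = a ∧ s 1 = b) → coeff s g = 0 := by
        intro a b γ
        refine ⟨monomial (Finsupp.single 0 a + Finsupp.single 1 b)
          ((frobeniusEquiv F p).symm γ), ?_, ?_⟩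
        · have e : p • (Finsupp.single (0 : Fin 2) a + Finsupp.single 1 b) =
              Finsupp.single 0 (p * a) + Finsupp.single 1 (p * b) := by
            ext k
            fin_cases k <;> simp
          rw [monomial_pow, frobeniusEquiv_symm_pow_p, e]
        · intro s hs
          rw [coeff_monomial, if_neg]
          rintro rfl
          apply hs
          simp
      refine ⟨0, ?_⟩
      have hg : ∃ g : MvPolynomial (Fin 2) F,
          monomial (Finsupp.single 0 (p * i' - 1) + Finsupp.single 1 (p * j')) α =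
            g ^ p * X 0 ^ (p - 1) ∧ (∀ s, N < n * (s 0 + 1) + m * s 1 → coeff s g = 0) := by
        rcases Nat.eq_zero_or_pos i' with h0 | h0
        · refine ⟨0, ?_, fun s _ => coeff_zero s⟩
          rw [hα (by rw [h0, Nat.mul_zero]), zero_pow hp0, zero_mul, map_zero]
        · obtain ⟨g, hg1, hg2⟩ := key (i' - 1) j' α
          refine ⟨g, ?_, fun s hs => hg2 s ?_⟩
          · have h3 : p * i' - 1 = p * (i' - 1) + (p - 1) := by
              obtain ⟨k, rfl⟩ : ∃ k, i' = k + 1 := ⟨i' - 1, by omega⟩
              have := hp.pos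
              rw [Nat.add_sub_cancel, Nat.mul_add, Nat.mul_one]
              omega
            have e : Finsupp.single (0 : Fin 2) (p * i' - 1) + Finsupp.single 1 (p * j') =
                Finsupp.single 0 (p * (i' - 1)) + Finsupp.single 1 (p * j') +
                  Finsupp.single 0 (p - 1) := by
              rw [h3]
              ext k
              fin_cases k
              · simp
              · simp
            rw [hg1, X_pow_eq_monomial, monomial_mul, mul_one, e]
          · rintro ⟨h4, h5⟩
            rw [h4, h5, Nat.sub_add_cancel h0] at hs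
            omega
      have hh : ∃ g : MvPolynomial (Fin 2) F,
          monomial (Finsupp.single 0 (p * i') + Finsupp.single 1 (p * j' - 1)) β =
            g ^ p * X 1 ^ (p - 1) ∧ (∀ s, N < n * s 0 + m * (s 1 + 1) → coeff s g = 0) := by
        rcases Nat.eq_zero_or_pos j' with h0 | h0
        · refine ⟨0, ?_, fun s _ => coeff_zero s⟩
          rw [hβ (by rw [h0, Nat.mul_zero]), zero_pow hp0, zero_mul, map_zero]
        · obtain ⟨g, hg1, hg2⟩ := key i' (j' - 1) β
          refine ⟨g, ?_, fun s hs => hg2 s ?_⟩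
          · have h3 : p * j' - 1 = p * (j' - 1) + (p - 1) := by
              obtain ⟨k, rfl⟩ : ∃ k, j' = k + 1 := ⟨j' - 1, by omega⟩
              have := hp.pos
              rw [Nat.add_sub_cancel, Nat.mul_add, Nat.mul_one]
              omega
            have e : Finsupp.single (0 : Fin 2) (p * i') + Finsupp.single 1 (p * j' - 1) =
                Finsupp.single 0 (p * i') + Finsupp.single 1 (p * (j' - 1)) +
                  Finsupp.single 1 (p - 1) := by
              rw [h3]
              ext k
              fin_cases k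
              · simp
              · simp
            rw [hg1, X_pow_eq_monomial, monomial_mul, mul_one, e]
          · rintro ⟨h4, h5⟩
            rw [h4, h5, Nat.sub_add_cancel h0] at hs
            omega
      obtain ⟨g, hg1, hg2⟩ := hg
      obtain ⟨h, hh1, hh2⟩ := hh
      exact ⟨g, h, by rw [map_zero, zero_add]; exact hg1, by rw [map_zero, zero_add]; exact hh1,
        hg2, hh2⟩
    · refine ⟨monomial (Finsupp.single 0 i + Finsupp.single 1 j) (β / j), 0, 0, ?_, ?_,
        fun s _ => coeff_zero s, fun s _ => coeff_zero s⟩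
      · have hα0 : α = 0 := by
          rw [hi, mul_zero] at hc
          exact (mul_eq_zero.1 hc).resolve_right hj
        rw [pderiv_monomial, zero_pow hp0, zero_mul, add_zero, hα0]
        simp [hi]
      · rw [pderiv_monomial, zero_pow hp0, zero_mul, add_zero, e1]
        congr 1
        simp [hj]
  · refine ⟨monomial (Finsupp.single 0 i + Finsupp.single 1 j) (α / i), 0, 0, ?_, ?_,
        fun s _ => coeff_zero s, fun s _ => coeff_zero s⟩
    · rw [pderiv_monomial, zero_pow hp0, zero_mul, add_zero, e0]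
      congr 1
      simp [hi]
    · rw [pderiv_monomial, zero_pow hp0, zero_mul, add_zero, e1]
      congr 1
      simp only [Finsupp.coe_add, Pi.add_apply, Finsupp.single_eq_same]
      rw [Finsupp.single_eq_of_ne (by decide), zero_add]
      rw [div_mul_eq_mul_div, hc, mul_div_assoc, div_self hi, mul_one]

theorem fin2_eq (m : Fin 2 →₀ ℕ) (i j : ℕ) :
    Finsupp.single 0 i + Finsupp.single 1 j = m ↔ m 0 = i ∧ m 1 = j := by
  constructor
  · rintro rfl
    simp
  · rintro ⟨h0, h1⟩
    ext k
    fin_cases k <;> simp [h0, h1]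

section wt

variable {F : Type} [Field F]

theorem natDeg_X0 (W : Wt) (N : ℕ) (g : MvPolynomial (Fin 2) F)
    (hg : ∀ s, N < W.n * (s 0 + 1) + W.m * s 1 → coeff s g = 0) :
    (toZ W (X 0 * g)).natDegree ≤ N := by
  rw [toZ_natDegree]
  intro s hs
  rw [mem_support_iff, coeff_X_mul'] at hs
  split_ifs at hs with h
  · by_contra hcon
    apply hs
    apply hg
    rw [Finsupp.mem_support_iff] at h
    have e0 : (s - Finsupp.single 0 1 : Fin 2 →₀ ℕ) 0 + 1 = s 0 := by
      rw [Finsupp.tsub_apply, Finsupp.single_eq_same]; omega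
    have e1 : (s - Finsupp.single 0 1 : Fin 2 →₀ ℕ) 1 = s 1 := by
      rw [Finsupp.tsub_apply, Finsupp.single_eq_of_ne (by decide), Nat.sub_zero]
    rw [e0, e1]
    omega
  · exact absurd rfl hs

theorem natDeg_X1 (W : Wt) (N : ℕ) (g : MvPolynomial (Fin 2) F)
    (hg : ∀ s, N < W.n * s 0 + W.m * (s 1 + 1) → coeff s g = 0) :
    (toZ W (X 1 * g)).natDegree ≤ N := by
  rw [toZ_natDegree]
  intro s hs
  rw [mem_support_iff, coeff_X_mul'] at hs
  split_ifs at hs with h
  · by_contra hcon
    apply hs
    apply hg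
    rw [Finsupp.mem_support_iff] at h
    have e0 : (s - Finsupp.single 1 1 : Fin 2 →₀ ℕ) 1 + 1 = s 1 := by
      rw [Finsupp.tsub_apply, Finsupp.single_eq_same]; omega
    have e1 : (s - Finsupp.single 1 1 : Fin 2 →₀ ℕ) 0 = s 0 := by
      rw [Finsupp.tsub_apply, Finsupp.single_eq_of_ne (by decide), Nat.sub_zero]
    rw [e0, e1]
    omega
  · exact absurd rfl hs

theorem coeff_of_natDeg_X0 (W : Wt) (N : ℕ) (a : MvPolynomial (Fin 2) F)
    (ha : (toZ W (X 0 * a)).natDegree ≤ N) (s : Fin 2 →₀ ℕ)
    (hs : N < W.n * (s 0 + 1) + W.m * s 1) : coeff s a = 0 := by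
  rw [toZ_natDegree] at ha
  by_contra hcon
  have h1 := ha (Finsupp.single 0 1 + s) (by rw [mem_support_iff, coeff_X_mul]; exact hcon)
  simp only [Finsupp.coe_add, Pi.add_apply, Finsupp.single_eq_same] at h1
  rw [Finsupp.single_eq_of_ne (by decide), zero_add, add_comm 1 (s 0)] at h1
  omega

theorem coeff_of_natDeg_X1 (W : Wt) (N : ℕ) (a : MvPolynomial (Fin 2) F)
    (ha : (toZ W (X 1 * a)).natDegree ≤ N) (s : Fin 2 →₀ ℕ)
    (hs : N < W.n * s 0 + W.m * (s 1 + 1)) : coeff s a = 0 := by
  rw [toZ_natDegree] at ha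
  by_contra hcon
  have h1 := ha (Finsupp.single 1 1 + s) (by rw [mem_support_iff, coeff_X_mul]; exact hcon)
  simp only [Finsupp.coe_add, Pi.add_apply, Finsupp.single_eq_same] at h1
  rw [Finsupp.single_eq_of_ne (by decide), zero_add, add_comm 1 (s 1)] at h1
  omega

end wt

theorem t_POIW : S_POIW := by
  intro p _ W F _ _ _ N a b ha hb hcl
  have hn := W.hn
  have hm := W.hm
  -- the coefficients
  let A : ℕ × ℕ → F := fun x => if x.1 = 0 then 0 else
    coeff (Finsupp.single 0 (x.1 - 1) + Finsupp.single 1 x.2) a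
  let B : ℕ × ℕ → F := fun x => if x.2 = 0 then 0 else
    coeff (Finsupp.single 0 x.1 + Finsupp.single 1 (x.2 - 1)) b
  let T : Finset (ℕ × ℕ) := (Finset.range (N + 2) ×ˢ Finset.range (N + 2)).filter
    fun x => W.n * x.1 + W.m * x.2 = N + 1
  have memT : ∀ x : ℕ × ℕ, x ∈ T ↔ W.n * x.1 + W.m * x.2 = N + 1 := by
    intro x
    simp only [T, Finset.mem_filter, Finset.mem_product, Finset.mem_range]
    constructor
    · exact fun h => h.2
    · intro h
      refine ⟨⟨?_, ?_⟩, h⟩
      · nlinarith
      · nlinarith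
  have hAB : ∀ x ∈ T, A x * ((x.2 : ℕ) : F) = B x * ((x.1 : ℕ) : F) := by
    rintro ⟨i, j⟩ hx
    rw [memT] at hx
    simp only at hx ⊢
    rcases Nat.eq_zero_or_pos i with h0 | h0
    · simp [A, h0]
    · rcases Nat.eq_zero_or_pos j with h1 | h1
      · simp [B, h1]
      · have h2 := toZ_coeff W (curl a b) (Finsupp.single 0 i + Finsupp.single 1 j)
        have v0 : (Finsupp.single (0 : Fin 2) i + Finsupp.single 1 j : Fin 2 →₀ ℕ) 0 = i := by simp
        have v1 : (Finsupp.single (0 : Fin 2) i + Finsupp.single 1 j : Fin 2 →₀ ℕ) 1 = j := by simp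
        rw [v0, v1, hx, hcl, Polynomial.coeff_zero] at h2
        have e : (Finsupp.single (0 : Fin 2) i + Finsupp.single 1 j : Fin 2 →₀ ℕ) =
            Finsupp.single 0 1 + (Finsupp.single 1 1 +
              (Finsupp.single 0 (i - 1) + Finsupp.single 1 (j - 1))) := by
          ext k
          fin_cases k <;> simp <;> omega
        rw [curl, mul_assoc, e, coeff_X_mul, coeff_X_mul, coeff_sub, coeff_pderiv,
          coeff_pderiv] at h2
        have e0 : (Finsupp.single (0 : Fin 2) (i - 1) + Finsupp.single 1 (j - 1) +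
            Finsupp.single 0 1 : Fin 2 →₀ ℕ) = Finsupp.single 0 i + Finsupp.single 1 (j - 1) := by
          ext k
          fin_cases k <;> simp <;> omega
        have e1 : (Finsupp.single (0 : Fin 2) (i - 1) + Finsupp.single 1 (j - 1) +
            Finsupp.single 1 1 : Fin 2 →₀ ℕ) = Finsupp.single 0 (i - 1) + Finsupp.single 1 j := by
          ext k
          fin_cases k <;> simp <;> omega
        rw [e0, e1] at h2
        simp only [A, B, if_neg (show ¬ i = 0 by omega), if_neg (show ¬ j = 0 by omega)]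
        have c0 : (((Finsupp.single (0 : Fin 2) (i - 1) + Finsupp.single 1 (j - 1) :
            Fin 2 →₀ ℕ) 0 : ℕ) : F) + 1 = (i : F) := by
          have : (Finsupp.single (0 : Fin 2) (i - 1) + Finsupp.single 1 (j - 1) :
            Fin 2 →₀ ℕ) 0 + 1 = i := by simp; omega
          exact_mod_cast congrArg (Nat.cast : ℕ → F) this
        have c1 : (((Finsupp.single (0 : Fin 2) (i - 1) + Finsupp.single 1 (j - 1) :
            Fin 2 →₀ ℕ) 1 : ℕ) : F) + 1 = ((j : ℕ) : F) := by
          have : (Finsupp.single (0 : Fin 2) (i - 1) + Finsupp.single 1 (j - 1) :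
            Fin 2 →₀ ℕ) 1 + 1 = j := by simp; omega
          exact_mod_cast congrArg (Nat.cast : ℕ → F) this
        rw [c0, c1] at h2
        exact (sub_eq_zero.1 h2.symm).symm
  have H : ∀ x : ℕ × ℕ, ∃ c g h : MvPolynomial (Fin 2) F, x ∈ T →
      monomial (Finsupp.single 0 (x.1 - 1) + Finsupp.single 1 x.2) (A x) =
        pderiv 0 c + g ^ p * X 0 ^ (p - 1) ∧
      monomial (Finsupp.single 0 x.1 + Finsupp.single 1 (x.2 - 1)) (B x) =
        pderiv 1 c + h ^ p * X 1 ^ (p - 1) ∧
      (∀ s, N < W.n * (s 0 + 1) + W.m * s 1 → coeff s g = 0) ∧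
      (∀ s, N < W.n * s 0 + W.m * (s 1 + 1) → coeff s h = 0) := by
    intro x
    by_cases hx : x ∈ T
    · obtain ⟨c, g, h, h1⟩ := elemW p F W.n W.m N x.1 x.2 hn hm ((memT x).1 hx) (A x) (B x)
        (fun h => by simp [A, h]) (fun h => by simp [B, h]) (hAB x hx)
      exact ⟨c, g, h, fun _ => h1⟩
    · exact ⟨0, 0, 0, fun h => absurd h hx⟩
  choose c g h H using H
  refine ⟨∑ x ∈ T, c x, ∑ x ∈ T, g x, ∑ x ∈ T, h x, ?_, ?_, ?_, ?_⟩
  · have e : pderiv 0 (∑ x ∈ T, c x) + (∑ x ∈ T, g x) ^ p * X 0 ^ (p - 1) =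
        ∑ x ∈ T, monomial (Finsupp.single 0 (x.1 - 1) + Finsupp.single 1 x.2) (A x) := by
      rw [map_sum, sum_pow_char, Finset.sum_mul, ← Finset.sum_add_distrib]
      exact Finset.sum_congr rfl fun x hx => ((H x hx).1).symm
    rw [e]
    apply natDeg_X0
    intro s hs
    rw [coeff_sub, coeff_sum]
    simp_rw [coeff_monomial, fin2_eq]
    by_cases hs1 : N + 1 < W.n * (s 0 + 1) + W.m * s 1
    · rw [coeff_of_natDeg_X0 W (N + 1) a ha s hs1, zero_sub, neg_eq_zero]
      refine Finset.sum_eq_zero fun x hx => ?_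
      rw [memT] at hx
      by_cases h0 : x.1 = 0
      · simp [A, h0]
      · rw [if_neg]
        rintro ⟨h1, h2⟩
        rw [h1, h2, Nat.sub_add_cancel (by omega)] at hs1
        omega
    · have hs2 : W.n * (s 0 + 1) + W.m * s 1 = N + 1 := by omega
      rw [Finset.sum_eq_single (s 0 + 1, s 1)]
      · rw [if_pos ⟨by simp, rfl⟩]
        simp only [A, if_neg (Nat.succ_ne_zero _)]
        rw [show (Finsupp.single 0 (s 0 + 1 - 1) + Finsupp.single 1 (s 1) : Fin 2 →₀ ℕ) = s from
          (fin2_eq _ _ _).2 ⟨by simp, rfl⟩, sub_self]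
      · intro x hx hne
        by_cases h0 : x.1 = 0
        · simp [A, h0]
        · rw [if_neg]
          rintro ⟨h1, h2⟩
          apply hne
          ext
          · simp only; omega
          · exact h2.symm
      · intro h1
        exact absurd ((memT _).2 hs2) h1
  · have e : pderiv 1 (∑ x ∈ T, c x) + (∑ x ∈ T, h x) ^ p * X 1 ^ (p - 1) =
        ∑ x ∈ T, monomial (Finsupp.single 0 x.1 + Finsupp.single 1 (x.2 - 1)) (B x) := by
      rw [map_sum, sum_pow_char, Finset.sum_mul, ← Finset.sum_add_distrib]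
      exact Finset.sum_congr rfl fun x hx => ((H x hx).2.1).symm
    rw [e]
    apply natDeg_X1
    intro s hs
    rw [coeff_sub, coeff_sum]
    simp_rw [coeff_monomial, fin2_eq]
    by_cases hs1 : N + 1 < W.n * s 0 + W.m * (s 1 + 1)
    · rw [coeff_of_natDeg_X1 W (N + 1) b hb s hs1, zero_sub, neg_eq_zero]
      refine Finset.sum_eq_zero fun x hx => ?_
      rw [memT] at hx
      by_cases h0 : x.2 = 0
      · simp [B, h0]
      · rw [if_neg]
        rintro ⟨h1, h2⟩
        rw [h1, h2, Nat.sub_add_cancel (by omega)] at hs1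
        omega
    · have hs2 : W.n * s 0 + W.m * (s 1 + 1) = N + 1 := by omega
      rw [Finset.sum_eq_single (s 0, s 1 + 1)]
      · rw [if_pos ⟨rfl, by simp⟩]
        simp only [B, if_neg (Nat.succ_ne_zero _)]
        rw [show (Finsupp.single 0 (s 0) + Finsupp.single 1 (s 1 + 1 - 1) : Fin 2 →₀ ℕ) = s from
          (fin2_eq _ _ _).2 ⟨rfl, by simp⟩, sub_self]
      · intro x hx hne
        by_cases h0 : x.2 = 0
        · simp [B, h0]
        · rw [if_neg]
          rintro ⟨h1, h2⟩
          apply hne
          ext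
          · exact h1.symm
          · simp only; omega
      · intro h1
        exact absurd ((memT _).2 hs2) h1
  · apply natDeg_X0
    intro s hs
    rw [coeff_sum]
    exact Finset.sum_eq_zero fun x hx => (H x hx).2.2.1 s hs
  · apply natDeg_X1
    intro s hs
    rw [coeff_sum]
    exact Finset.sum_eq_zero fun x hx => (H x hx).2.2.2 s hs

end Pool.Agent.K3h24.AS
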